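import Pool.Agent.P.MP_6ec1b7_co.Dilworth

set_option autoImplicit false

namespace Pool.Agent.Results.MP_6ec1b7_co.FiniteWidthSpine

universe u

/-- `P` has width `w`: it has an antichain of size `w` and no antichain of size `w + 1`. -/
def HasWidth (P : Type u) [PartialOrder P] (w : ℕ) : Prop :=
  (∃ A : Finset P, IsAntichain (· ≤ ·) (A : Set P) ∧ A.card = w) ∧
    ¬ ∃ A : Finset P, IsAntichain (· ≤ ·) (A : Set P) ∧ A.card = w + 1

/-- `C` is a spine of `P`: a chain meeting every part of some partition of `P` into antichains. -/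
def IsSpine {P : Type u} [PartialOrder P] (C : Set P) : Prop :=
  IsChain (· ≤ ·) C ∧ ∃ 𝒜 : Set (Set P), ⋃₀ 𝒜 = Set.univ ∧ 𝒜.PairwiseDisjoint id ∧
    (∀ A ∈ 𝒜, IsAntichain (· ≤ ·) A) ∧ ∀ A ∈ 𝒜, (C ∩ A).Nonempty

theorem result (P : Type u) [PartialOrder P] (w : ℕ) (_hw : 0 < w) (hP : HasWidth P w) :
    ∃ C : Set P, IsSpine C := by
  obtain ⟨C, f, h1, h2, h3, h4⟩ := Pool.Agent.P.MP_6ec1b7_co.exists_retraction (α := P) w
    fun A hA => by
      by_contra h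
      obtain ⟨B, hB1, hB2⟩ := Finset.exists_subset_card_eq (show w + 1 ≤ A.card by omega)
      exact hP.2 ⟨B, hA.subset (Finset.coe_subset.mpr hB1), hB2⟩
  refine ⟨C, h1, (fun c => f ⁻¹' {c}) '' C, ?_, ?_, ?_, ?_⟩
  · exact Set.eq_univ_of_forall fun x => ⟨_, ⟨f x, h2 x, rfl⟩, rfl⟩
  · rintro _ ⟨c, -, rfl⟩ _ ⟨c', -, rfl⟩ hne
    exact Set.disjoint_left.mpr fun x hx hx' => hne (by
      have e1 : f x = c := hx
      have e2 : f x = c' := hx'
      rw [← e1, ← e2])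
  · rintro _ ⟨c, -, rfl⟩ x hx y hy hne h
    have e1 : f x = c := hx
    have e2 : f y = c := hy
    exact hne (h4 x y (e1.trans e2.symm) h)
  · rintro _ ⟨c, hc, rfl⟩
    exact ⟨c, hc, h3 c hc⟩

end Pool.Agent.Results.MP_6ec1b7_co.FiniteWidthSpine
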